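import Pool.Agent.H252R2.Top2
import Pool.Agent.H252R2.CDUniq

set_option autoImplicit false

/-!
# Ehrenborg's cd-index inequality for simplicial spheres

Question Q2 of the problem: for every simplicial `(d-1)`-sphere `Δ` and all cd-words `u`, `v` with
`deg u + deg v = d - 2`, the coefficients `φ` of the cd-index satisfy
`φ_{udv}(Δ) - φ_{uccv}(Δ) ≥ φ_{udv}(simplex) - φ_{uccv}(simplex)`.

All definitions used in the statement are in this file.
-/

namespace Pool.Agent.Results.MP_fdde87_co.SimplicialSpheres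

/-- A finite abstract simplicial complex with vertices in `V`. The empty set is a face. A face with
`k` vertices has dimension `k - 1`. -/
structure Complex (V : Type) where
  /-- the faces -/
  faces : Finset (Finset V)
  /-- the empty face is a face -/
  empty_mem : ∅ ∈ faces
  /-- subsets of faces are faces -/
  down : ∀ σ ∈ faces, ∀ τ, τ ⊆ σ → τ ∈ faces

/-- The geometric realisation of `Δ`: the points of the standard simplex (barycentric coordinates
indexed by `V`) whose support is contained in a face. -/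
def realisation {V : Type} [Fintype V] (Δ : Complex V) : Set (V → ℝ) :=
  {x | (∀ v, 0 ≤ x v) ∧ ∑ v, x v = 1 ∧ ∃ σ ∈ Δ.faces, ∀ v, v ∉ σ → x v = 0}

/-- `Δ` is a simplicial `(d-1)`-sphere: it has dimension `d - 1` (every face has at most `d`
vertices and some face has `d` vertices) and its realisation is homeomorphic to the unit sphere of
`ℝ^d`. -/
def IsSimplicialSphere {V : Type} [Fintype V] (d : ℕ) (Δ : Complex V) : Prop :=
  (∀ σ ∈ Δ.faces, σ.card ≤ d) ∧ (∃ σ ∈ Δ.faces, σ.card = d) ∧
    Nonempty (realisation Δ ≃ₜ Metric.sphere (0 : EuclideanSpace ℝ (Fin d)) 1)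

/-- The boundary complex of the `d`-simplex: all proper subsets of a set with `d + 1` elements.
Its nonempty faces are the proper nonempty faces of the `d`-simplex. -/
def simplexBoundary (d : ℕ) : Complex (Fin (d + 1)) where
  faces := Finset.univ.filter fun σ => σ ≠ Finset.univ
  empty_mem := by
    rw [Finset.mem_filter]
    exact ⟨Finset.mem_univ _, fun h => Finset.notMem_empty (0 : Fin (d + 1))
      (h ▸ Finset.mem_univ _)⟩
  down := by
    intro σ hσ τ hτ
    rw [Finset.mem_filter] at hσ ⊢
    refine ⟨Finset.mem_univ _, fun h => hσ.2 ?_⟩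
    rw [h] at hτ
    exact Finset.univ_subset_iff.1 hτ

open Classical in
/-- The flag f-vector: the number of chains of nonempty faces of `Δ` whose set of dimensions is
exactly `S`. -/
noncomputable def flagF {V : Type} (Δ : Complex V) (S : Finset ℕ) : ℤ :=
  ((Δ.faces.powerset.filter fun C : Finset (Finset V) => (∀ F ∈ C, F.Nonempty) ∧
    IsChain (· ⊆ ·) (C : Set (Finset V)) ∧ C.image (fun F => F.card - 1) = S).card : ℤ)

/-- The flag h-vector. -/
noncomputable def flagH {V : Type} (Δ : Complex V) (S : Finset ℕ) : ℤ :=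
  ∑ T ∈ S.powerset, (-1 : ℤ) ^ (S \ T).card * flagF Δ T

/-- The free ring on the two noncommuting variables `a` and `b`. -/
abbrev AB : Type := FreeAlgebra ℤ Bool

/-- The variable `a`. -/
noncomputable def varA : AB := FreeAlgebra.ι ℤ false

/-- The variable `b`. -/
noncomputable def varB : AB := FreeAlgebra.ι ℤ true

/-- The word `u_S = u_0 u_1 ... u_{d-1}` with `u_i = b` for `i ∈ S` and `u_i = a` otherwise. -/
noncomputable def word (d : ℕ) (S : Finset ℕ) : AB :=
  ((List.range d).map fun i => if i ∈ S then varB else varA).prod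

/-- The ab-index of a simplicial complex of dimension at most `d - 1`, that is, of its face poset
with a top element adjoined: the sum over `S ⊆ {0, ..., d-1}` of `h_S u_S`. -/
noncomputable def abIndex {V : Type} (d : ℕ) (Δ : Complex V) : AB :=
  ∑ S ∈ (Finset.range d).powerset, flagH Δ S • word d S

/-- Letters of cd-words. -/
abbrev Letter : Type := Bool

/-- The letter `c`. -/
def lc : Letter := false

/-- The letter `d`. -/
def ld : Letter := true

/-- cd-words. -/
abbrev CDWord : Type := List Letter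

/-- The degree of a cd-word; `deg c = 1` and `deg d = 2`. -/
def deg (w : CDWord) : ℕ := (w.map fun x => if x = ld then 2 else 1).sum

/-- The value of a cd-word in the free ring on `a`, `b`: the letter `c` stands for `a + b` and the
letter `d` stands for `ab + ba`. -/
noncomputable def value (w : CDWord) : AB :=
  (w.map fun x => if x = ld then varA * varB + varB * varA else varA + varB).prod

/-- `φ` is the family of coefficients of a cd-index of degree `d` with value `P`: every cd-word
which occurs has degree `d`, and `P = ∑ φ_w w`. -/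
def IsCDIndex (d : ℕ) (P : AB) (φ : CDWord →₀ ℤ) : Prop :=
  (∀ w ∈ φ.support, deg w = d) ∧ φ.sum (fun w k => k • value w) = P

open Pool.Agent.H252R2 Pool.Agent.Helper611.ZBase Polynomial

lemma deg_eq (w : CDWord) : deg w = CDUniq.deg w := by
  induction w with
  | nil => rfl
  | cons x w ih =>
    cases x
    · rw [CDUniq.deg_c, ← ih]
      unfold deg
      rw [List.map_cons, List.sum_cons]
      show 1 + _ = _
      rw [add_comm]
    · rw [CDUniq.deg_d, ← ih]
      unfold deg
      rw [List.map_cons, List.sum_cons]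
      show 2 + _ = _
      rw [add_comm]

lemma value_eq (w : CDWord) : value w = CDUniq.val w := rfl

lemma isCD_iff (d : ℕ) (P : AB) (φ : CDWord →₀ ℤ) : IsCDIndex d P φ ↔ CDUniq.IsCd d P φ := by
  unfold IsCDIndex CDUniq.IsCd
  constructor
  · rintro ⟨h1, h2⟩
    exact ⟨fun w hw => by rw [← deg_eq]; exact h1 w hw, h2⟩
  · rintro ⟨h1, h2⟩
    exact ⟨fun w hw => by rw [deg_eq]; exact h1 w hw, h2⟩

/-- the complex in the library -/
def toCx {V : Type} (Δ : Complex V) : Cx V := ⟨Δ.faces, Δ.empty_mem, Δ.down⟩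

lemma abIndex_lib {V : Type} (d : ℕ) (Δ : Complex V) :
    abIndex d Δ = CDFlag.abIndex d Δ.faces := rfl

/-- the ab-index of a complex with symmetric h-numbers -/
lemma abIndex_phi {V : Type} (d : ℕ) (Δ : Complex V) (hsmall : ∀ σ ∈ Δ.faces, σ.card ≤ d)
    (hs : ∀ s, s ≤ d → CDNum.hn d (Lef7.fnum (toCx Δ)) s =
      CDNum.hn d (Lef7.fnum (toCx Δ)) (d - s)) :
    CDOps.ev CDAb.vc CDAb.vd d (CDNum.Phi d (Lef7.fnum (toCx Δ))) = abIndex d Δ := by
  classical
  rw [CDNum.ev_Phi d _ hs, abIndex_lib,
    CDFlag.abIndex_eq d Δ.faces Δ.empty_mem Δ.down hsmall]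
  rfl

lemma simplex_hn (d : ℕ) (s : ℕ) (hs : s ≤ d) :
    CDNum.hn d (Lef7.fnum (toCx (simplexBoundary d))) s = 1 := by
  have h1 : ∀ j, j ≤ d → Lef7.fnum (toCx (simplexBoundary d)) j = ((d + 1).choose j : ℤ) := by
    intro j hj
    unfold Lef7.fnum
    have h2 : (toCx (simplexBoundary d)).faces.filter (fun F => F.card = j) =
        Finset.univ.powersetCard j := by
      ext F
      rw [Finset.mem_filter, Finset.mem_powersetCard]
      show F ∈ Finset.univ.filter _ ∧ _ ↔ _
      rw [Finset.mem_filter]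
      constructor
      · rintro ⟨_, h3⟩
        exact ⟨Finset.subset_univ _, h3⟩
      · rintro ⟨_, h3⟩
        refine ⟨⟨Finset.mem_univ _, fun h4 => ?_⟩, h3⟩
        rw [h4, Finset.card_univ, Fintype.card_fin] at h3
        omega
    rw [h2, Finset.card_powersetCard, Finset.card_univ, Fintype.card_fin]
  -- compare with the polynomial of the simplex
  have h2 := CDNum.fp_eq d (Lef7.fnum (toCx (simplexBoundary d)))
  have h3 : CDNum.fp d (Lef7.fnum (toCx (simplexBoundary d))) = CDAb.H d := by
    ext k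
    unfold CDNum.fp
    rw [finsetSum_coeff]
    by_cases hk : k ≤ d
    · rw [Finset.sum_eq_single k, coeff_smul, coeff_X_pow_self, smul_eq_mul, mul_one, h1 k hk,
        CDAb.H_coeff d k hk]
      · intro j _ hj
        rw [coeff_smul, coeff_X_pow, if_neg (Ne.symm hj), smul_zero]
      · intro h
        exact absurd (Finset.mem_range.2 (by omega)) h
    · rw [Finset.sum_eq_zero, coeff_eq_zero_of_natDegree_lt]
      · have := CDAb.H_deg d
        omega
      · intro j hj
        have hj' := Finset.mem_range.1 hj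
        rw [coeff_smul, coeff_X_pow, if_neg (by omega), smul_zero]
  have h4 : ∑ j ∈ Finset.range (d + 1),
      (CDNum.hn d (Lef7.fnum (toCx (simplexBoundary d))) j - 1) •
        (X ^ j * (1 + X) ^ (d - j) : ℤ[X]) = 0 := by
    have h5 : ∀ j ∈ Finset.range (d + 1),
        (CDNum.hn d (Lef7.fnum (toCx (simplexBoundary d))) j - 1) •
        (X ^ j * (1 + X) ^ (d - j) : ℤ[X]) =
        CDNum.hn d (Lef7.fnum (toCx (simplexBoundary d))) j • (X ^ j * (1 + X) ^ (d - j)) -
        X ^ j * (1 + X) ^ (d - j) := fun j _ => by rw [sub_smul, one_smul]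
    rw [Finset.sum_congr rfl h5, Finset.sum_sub_distrib, ← h2, h3]
    exact sub_self _
  have h5 : ∀ s, s ≤ d → CDNum.hn d (Lef7.fnum (toCx (simplexBoundary d))) s - 1 = 0 := by
    intro s
    induction s using Nat.strong_induction_on with
    | _ s ih =>
      intro hs
      have h6 := congrArg (fun P : ℤ[X] => P.coeff s) h4
      rw [finsetSum_coeff, Finset.sum_eq_single s, coeff_smul, coeff_zero,
        mul_comm (X ^ s), coeff_mul_X_pow', if_pos le_rfl, Nat.sub_self,
        coeff_one_add_X_pow, Nat.choose_zero_right, Nat.cast_one, smul_eq_mul, mul_one] at h6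
      · exact h6
      · intro j _ hj
        rcases lt_or_gt_of_ne hj with h7 | h7
        · rw [ih j h7 (by omega), zero_smul, coeff_zero]
        · rw [coeff_smul, mul_comm (X ^ j), coeff_mul_X_pow', if_neg (by omega), smul_zero]
      · intro h
        exact absurd (Finset.mem_range.2 (by omega)) h
  have := h5 s hs
  linarith

theorem result {V : Type} [Fintype V] (d : ℕ) (hd : 1 ≤ d) (Δ : Complex V)
    (hΔ : IsSimplicialSphere d Δ) :
    (∃! φ : CDWord →₀ ℤ, IsCDIndex d (abIndex d Δ) φ) ∧
    (∃! ψ : CDWord →₀ ℤ, IsCDIndex d (abIndex d (simplexBoundary d)) ψ) ∧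
    ∀ φ ψ : CDWord →₀ ℤ, IsCDIndex d (abIndex d Δ) φ →
      IsCDIndex d (abIndex d (simplexBoundary d)) ψ →
      ∀ u v : CDWord, deg u + deg v + 2 = d →
        φ (u ++ [ld] ++ v) - φ (u ++ [lc, lc] ++ v) ≥
          ψ (u ++ [ld] ++ v) - ψ (u ++ [lc, lc] ++ v) := by
  classical
  let _ : LinearOrder V := LinearOrder.lift' (Fintype.equivFin V) (Equiv.injective _)
  obtain ⟨hsmall, hfacet, hhomeo⟩ := hΔ
  have hyp : Top2.Hyp (toCx Δ) d :=
    ⟨hsmall, hfacet, fun τ hne hτ k => Top1.del_acyclic (toCx Δ) d hhomeo τ hτ hne k⟩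
  have e1 := abIndex_phi d Δ hsmall fun s hs => Top2.hsymm hyp hd s hs
  have hsmall0 : ∀ σ ∈ (simplexBoundary d).faces, σ.card ≤ d := by
    intro σ hσ
    have h1 : σ ≠ Finset.univ := (Finset.mem_filter.1 hσ).2
    have h2 := Finset.card_lt_card (Finset.ssubset_univ_iff.2 h1)
    rw [Finset.card_univ, Fintype.card_fin] at h2
    omega
  have e0 := abIndex_phi d (simplexBoundary d) hsmall0 fun s hs => by
    rw [simplex_hn d s hs, simplex_hn d (d - s) (by omega)]
  have i1 : IsCDIndex d (abIndex d Δ) (CDUniq.mk d (CDNum.Phi d (Lef7.fnum (toCx Δ)))) := by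
    rw [isCD_iff, ← e1]
    exact CDUniq.mk_isCd d _
  have i0 : IsCDIndex d (abIndex d (simplexBoundary d))
      (CDUniq.mk d (CDNum.Phi d (Lef7.fnum (toCx (simplexBoundary d))))) := by
    rw [isCD_iff, ← e0]
    exact CDUniq.mk_isCd d _
  have u1 : ∀ φ : CDWord →₀ ℤ, IsCDIndex d (abIndex d Δ) φ →
      φ = CDUniq.mk d (CDNum.Phi d (Lef7.fnum (toCx Δ))) := fun φ hφ =>
    CDUniq.isCd_unique d _ _ _ ((isCD_iff _ _ _).1 hφ) ((isCD_iff _ _ _).1 i1)
  have u0 : ∀ φ : CDWord →₀ ℤ, IsCDIndex d (abIndex d (simplexBoundary d)) φ →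
      φ = CDUniq.mk d (CDNum.Phi d (Lef7.fnum (toCx (simplexBoundary d)))) := fun φ hφ =>
    CDUniq.isCd_unique d _ _ _ ((isCD_iff _ _ _).1 hφ) ((isCD_iff _ _ _).1 i0)
  refine ⟨⟨_, i1, u1⟩, ⟨_, i0, u0⟩, ?_⟩
  intro φ ψ hφ hψ u v huv
  rw [u1 φ hφ, u0 ψ hψ]
  rw [deg_eq, deg_eq] at huv
  have d1 : CDUniq.deg (u ++ [ld] ++ v) = d := by
    rw [CDUniq.deg_append, CDUniq.deg_append]
    show CDUniq.deg u + 2 + CDUniq.deg v = d
    omega
  have d2 : CDUniq.deg (u ++ [lc, lc] ++ v) = d := by
    rw [CDUniq.deg_append, CDUniq.deg_append]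
    show CDUniq.deg u + 2 + CDUniq.deg v = d
    omega
  rw [CDUniq.mk_apply d _ _ d1, CDUniq.mk_apply d _ _ d2, CDUniq.mk_apply d _ _ d1,
    CDUniq.mk_apply d _ _ d2]
  have key := CDNum.Phi_ineq d (Lef7.fnum (toCx Δ)) (Lef7.fnum (toCx (simplexBoundary d)))
    (Top2.hzero (toCx Δ) d) (fun s hs => simplex_hn d s hs)
    (fun a ha => Top2.glbt_sphere hyp hd a ha) u v
  have w1 : u ++ [ld] ++ v = u ++ true :: v := by simp [ld]
  have w2 : u ++ [lc, lc] ++ v = u ++ false :: false :: v := by simp [lc]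
  rw [w1, w2]
  exact key

end Pool.Agent.Results.MP_fdde87_co.SimplicialSpheres
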